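import Pool.Agent.N569.FB.Rep
import Pool.Agent.N106.FB.FB1
import Pool.Agent.N143.FB.FB3
import Pool.Agent.N607.FB.FB4
import Pool.Agent.N863.FB.FB5

/-!
# The ingredients
-/

set_option autoImplicit false

namespace Pool.Agent.N569.FB

open Pool.Agent.H891R2.Jones Pool.Agent.W639.RB Pool.Agent.TH561 Pool.Agent.N569.TW Pool.Agent.N569.VT
  Pool.Agent.H297.FT Finset LaurentPolynomial

variable {m k : ℕ}

theorem cluster {ι : Type*} [Fintype ι] (w w' : ι → ℤ) (G : ι → ℤ[T;T⁻¹]) (R : ℤ) (hG : ∀ i, Ex (G i) R)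
    (h : ∑ i, T (w i) * G i = 0) (hw : ∀ i j, |w i - w j| ≤ 2 * R → w' i - w' j = w i - w j) :
    ∑ i, T (w' i) * G i = 0 := Pool.Agent.N106.FB.cluster w w' G R hG h hw

theorem expansion (hm : 0 < m) (O : Outer m) (B : Boxes m k) (b : ℤ)
    (hb : ∀ j : Fin k → ℕ, (∀ e, j e ≤ B.size e / 2) → Ex (family O B (fun e => (j e : ℤ))).fPoly b) :
    ∃ (Q : ℤ[T;T⁻¹]) (G : Ind B → ℤ[T;T⁻¹]), Q ≠ 0 ∧
      Ex Q (Fintype.card (Ind B) * (3 * k * m ^ 3)) ∧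
      (∀ r, Ex (G r) (b + Fintype.card (Ind B) * (3 * k * m ^ 3))) ∧
      ∀ a : Fin k → ℤ, Q * (family O B a).fPoly = ∑ r, T (wt O B (some r) a) * G r :=
  Pool.Agent.N143.FB.expansion hm O B b hb

theorem fPoly_ex (hm : 0 < m) (O : Outer m) (W : List (Bool × ℕ)) (hW : ∀ x ∈ W, x.2 + 1 < m) (s : ℕ)
    (hs : O.close.loops (fun _ => true) ≤ s) :
    Ex (draw O W).close.fPoly (6 * O.crossings.length + 2 * s + 6 * W.length) :=
  Pool.Agent.N607.FB.fPoly_ex hm O W hW s hs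

theorem loops_le (hm : 0 < m) (O : Outer m) (W : List (Bool × ℕ)) (hW : ∀ x ∈ W, x.2 + 1 < m)
    (h : (draw O W).close.fPoly = 1) : O.close.loops (fun _ => true) ≤ O.crossings.length + m :=
  Pool.Agent.N607.FB.loops_le hm O W hW h

theorem fill_draw (B : Boxes m k) (a : Fin k → ℤ) : ∃ W : List (Bool × ℕ), (∀ x ∈ W, x.2 + 1 < m) ∧
    (W.length : ℤ) = ∑ e, |a e| * (B.size e * (B.size e - 1)) ∧ ∀ O : Outer m, fill O B a = draw O W :=
  Pool.Agent.N863.FB.fill_draw B a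

end Pool.Agent.N569.FB
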