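import Pool.Agent.N569.VT.Bnd
import Pool.Agent.H297.FT.Main

/-!
# Explicit bounds for the exceptional numbers of full twists
-/

set_option autoImplicit false

namespace Pool.Agent.N569.FB

open Finset LaurentPolynomial

/-- all exponents of `p` are in `[-b, b]` -/
def Ex (p : ℤ[T;T⁻¹]) (b : ℤ) : Prop := ∀ n, p.coeff n ≠ 0 → |n| ≤ b

end Pool.Agent.N569.FB
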