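import Pool.Agent.N569.FB.All

/-!
# The explicit structure theorem
-/

set_option autoImplicit false

namespace Pool.Agent.N569.FB

open Pool.Agent.H891R2.Jones Pool.Agent.W639.RB Pool.Agent.TH561 Pool.Agent.N569.TW Pool.Agent.N569.VT
  Pool.Agent.H297.FT Finset LaurentPolynomial

variable {m k : ℕ}

theorem Ex.mono {p : ℤ[T;T⁻¹]} {b c : ℤ} (h : Ex p b) (hbc : b ≤ c) : Ex p c := fun n hn => (h n hn).trans hbc

/-- the bound for the exponents -/
def RR (m k N : ℕ) : ℕ := 8 * N + 2 * m + 3 * k * m ^ 3 * (1 + (m / 2 + 1) ^ k)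

/-- the explicit bound -/
def KK (m k N : ℕ) : ℕ := k.factorial * (3 * m ^ 2) ^ (k - 1) * (2 * RR m k N + k.factorial * (3 * m ^ 2) ^ k)

/-- the coefficients of the linear forms -/
def cf (O : Outer m) (B : Boxes m k) : Option (Ind B) → Fin k → ℤ
  | none, _ => 0
  | some r, e => ((B.size e - 2 * (r e : ℕ) : ℕ) : ℤ) * ((B.size e - 2 * (r e : ℕ) : ℕ) + 2) -
      3 * (lk O (B.off e) (B.size e)) ^ 2

theorem wt_cf (O : Outer m) (B : Boxes m k) (i : Option (Ind B)) (a : Fin k → ℤ) :
    wt O B i a = ∑ e, cf O B i e * a e := by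
  rcases i with _ | r
  · simp [Pool.Agent.H297.FT.wt, cf]
  · rfl

theorem abs_lk (O : Outer m) (off n : ℕ) (_h : off + n ≤ m) : |lk O off n| ≤ n := by
  unfold lk
  have h1 : |∑ j : Fin m, (if off ≤ (j : ℕ) ∧ (j : ℕ) < off + n then (if O.up j then (1 : ℤ) else -1) else 0)| ≤
      ∑ j : Fin m, (if off ≤ (j : ℕ) ∧ (j : ℕ) < off + n then (1 : ℤ) else 0) := by
    refine (Finset.abs_sum_le_sum_abs _ _).trans (Finset.sum_le_sum fun j _ => ?_)
    split_ifs <;> simp
  refine h1.trans ?_
  rw [Finset.sum_boole]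
  have h2 : #(univ.filter (fun j : Fin m => off ≤ (j : ℕ) ∧ (j : ℕ) < off + n)) ≤ #(Finset.Ico off (off + n)) := by
    refine Finset.card_le_card_of_injOn (fun j => (j : ℕ)) ?_ ?_
    · intro j hj
      have := (Finset.mem_filter.1 hj).2
      simpa using this
    · intro i _ j _ hij
      exact Fin.ext hij
  rw [Nat.card_Ico] at h2
  have h3 : #(univ.filter (fun j : Fin m => off ≤ (j : ℕ) ∧ (j : ℕ) < off + n)) ≤ n := by omega
  exact_mod_cast h3

theorem cf_bound (hm : 0 < m) (O : Outer m) (B : Boxes m k) (i j : Option (Ind B)) (e : Fin k) :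
    |cf O B i e - cf O B j e| ≤ 3 * (m : ℤ) ^ 2 := by
  have hm' : (1 : ℤ) ≤ m := by exact_mod_cast hm
  have hl := abs_le.1 (abs_lk O (B.off e) (B.size e) (B.le e))
  have hs : (B.size e : ℤ) ≤ m := by
    have := B.le e
    have h2 : B.size e ≤ m := by omega
    exact_mod_cast h2
  set l := lk O (B.off e) (B.size e) with hldef
  have hl2 : l ^ 2 ≤ (m : ℤ) ^ 2 := by
    apply sq_le_sq'
    · linarith [hl.1]
    · linarith [hl.2]
  have hl0 : 0 ≤ l ^ 2 := sq_nonneg l
  have key : ∀ r : Ind B, 0 ≤ ((B.size e - 2 * (r e : ℕ) : ℕ) : ℤ) * ((B.size e - 2 * (r e : ℕ) : ℕ) + 2) ∧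
      ((B.size e - 2 * (r e : ℕ) : ℕ) : ℤ) * ((B.size e - 2 * (r e : ℕ) : ℕ) + 2) ≤ 3 * (m : ℤ) ^ 2 := by
    intro r
    have h1 : ((B.size e - 2 * (r e : ℕ) : ℕ) : ℤ) ≤ m := by
      have h2 : B.size e - 2 * (r e : ℕ) ≤ B.size e := Nat.sub_le _ _
      have h3 : ((B.size e - 2 * (r e : ℕ) : ℕ) : ℤ) ≤ B.size e := by exact_mod_cast h2
      linarith
    have h0 : (0 : ℤ) ≤ ((B.size e - 2 * (r e : ℕ) : ℕ) : ℤ) := Int.natCast_nonneg _
    constructor
    · positivity
    · nlinarith
  rcases i with _ | r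
  · rcases j with _ | r'
    · simp only [cf, sub_self, abs_zero]
      positivity
    · obtain ⟨h1, h2⟩ := key r'
      simp only [cf]
      rw [abs_le]
      constructor
      · linarith
      · linarith
  · obtain ⟨h1, h2⟩ := key r
    rcases j with _ | r'
    · simp only [cf]
      rw [abs_le]
      constructor
      · linarith
      · linarith
    · obtain ⟨h3, h4⟩ := key r'
      simp only [cf]
      rw [abs_le]
      constructor
      · linarith
      · linarith

theorem card_Ind (B : Boxes m k) : Fintype.card (Ind B) ≤ (m / 2 + 1) ^ k := by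
  unfold Ind
  rw [Fintype.card_pi]
  calc ∏ e, Fintype.card (Fin (B.size e / 2 + 1)) ≤ ∏ _e : Fin k, (m / 2 + 1) := by
        refine Finset.prod_le_prod' fun e _ => ?_
        rw [Fintype.card_fin]
        have := B.le e
        omega
    _ = (m / 2 + 1) ^ k := by simp

/-- the main step: the translates by the vectors on which the close exponents agree -/
theorem core (hm : 0 < m) (N : ℕ) (O : Outer m) (hN : O.crossings.length ≤ N) (B : Boxes m k) (a : Fin k → ℤ)
    (ha : (family O B a).fPoly = 1) (w : Fin k → ℤ)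
    (hw : ∀ i j, |wt O B i a - wt O B j a| ≤ 2 * ((RR m k N : ℕ) : ℤ) → wt O B i w = wt O B j w) :
    (family O B (a + w)).fPoly = 1 := by
  -- the number of the circles
  have hloops : O.close.loops (fun _ => true) ≤ N + m := by
    obtain ⟨W, hW, -, hd⟩ := fill_draw B a
    have h1 := loops_le hm O W hW (by
      have h2 : (fill O B a).close.fPoly = 1 := ha
      rw [hd O] at h2
      exact h2)
    omega
  -- the exponents of the first members
  set b : ℤ := 8 * N + 2 * m + 3 * k * m ^ 3 with hbdef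
  have hb : ∀ j : Fin k → ℕ, (∀ e, j e ≤ B.size e / 2) → Ex (family O B (fun e => (j e : ℤ))).fPoly b := by
    intro j hj
    obtain ⟨W, hW, hlen, hd⟩ := fill_draw (m := m) B (fun e => (j e : ℤ))
    have h1 := fPoly_ex hm O W hW (N + m) hloops
    have h2 : Ex (fill O B (fun e => (j e : ℤ))).close.fPoly b := by
      rw [hd O]
      refine h1.mono ?_
      have h3 : 6 * (W.length : ℤ) ≤ 3 * k * m ^ 3 := by
        rw [hlen, Finset.mul_sum]
        calc ∑ e, 6 * (|(j e : ℤ)| * ((B.size e : ℤ) * (B.size e - 1))) ≤ ∑ _e : Fin k, 3 * (m : ℤ) ^ 3 := by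
              refine Finset.sum_le_sum fun e _ => ?_
              have h4 : 2 * j e ≤ B.size e := by have := hj e; omega
              have h5 : B.size e ≤ m := by have := B.le e; omega
              have h4' : 2 * (j e : ℤ) ≤ B.size e := by exact_mod_cast h4
              have h5' : (B.size e : ℤ) ≤ m := by exact_mod_cast h5
              have h6 : (0 : ℤ) ≤ j e := Int.natCast_nonneg _
              have h7 : (0 : ℤ) ≤ B.size e := Int.natCast_nonneg _
              rw [abs_of_nonneg h6]
              have h8 : (B.size e : ℤ) * (B.size e - 1) ≤ m ^ 2 := by nlinarith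
              have h9 : 2 * (j e : ℤ) * ((B.size e : ℤ) * (B.size e - 1)) ≤ 2 * (j e : ℤ) * m ^ 2 :=
                mul_le_mul_of_nonneg_left h8 (by linarith)
              have h10 : 2 * (j e : ℤ) * (m : ℤ) ^ 2 ≤ m * m ^ 2 :=
                mul_le_mul_of_nonneg_right (h4'.trans h5') (by positivity)
              nlinarith
          _ = 3 * k * m ^ 3 := by simp; ring
      have h4 : (O.crossings.length : ℤ) ≤ N := by exact_mod_cast hN
      rw [hbdef]
      push_cast
      linarith
    exact h2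
  obtain ⟨Q, G, hQ, hQe, hGe, hexp⟩ := expansion hm O B b hb
  have hcard : (Fintype.card (Ind B) : ℤ) ≤ ((m / 2 + 1) ^ k : ℕ) := by exact_mod_cast card_Ind B
  set R : ℤ := ((RR m k N : ℕ) : ℤ) with hR
  have hRb : b + Fintype.card (Ind B) * (3 * k * m ^ 3) ≤ R := by
    rw [hR, hbdef]
    unfold RR
    have h1 : (Fintype.card (Ind B) : ℤ) * (3 * k * m ^ 3) ≤ ((m / 2 + 1) ^ k : ℕ) * (3 * k * m ^ 3) :=
      mul_le_mul_of_nonneg_right hcard (by positivity)
    have h2 : (((8 * N + 2 * m + 3 * k * m ^ 3 * (1 + (m / 2 + 1) ^ k) : ℕ)) : ℤ) =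
        8 * N + 2 * m + 3 * k * m ^ 3 + ((m / 2 + 1) ^ k : ℕ) * (3 * k * m ^ 3) := by
      push_cast
      ring
    rw [h2]
    linarith
  have hb0 : 0 ≤ b := by rw [hbdef]; positivity
  -- the whole family
  set G' : Option (Ind B) → ℤ[T;T⁻¹] := fun i => i.elim (-Q) G with hG'
  have hG'e : ∀ i, Ex (G' i) R := by
    intro i
    rcases i with _ | r
    · intro n hn
      have h1 : Q.coeff n ≠ 0 := by
        intro h2
        apply hn
        show (-Q).coeff n = 0
        rw [AddMonoidAlgebra.coeff_neg, Finsupp.neg_apply, h2, neg_zero]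
      have h2 := hQe n h1
      linarith
    · exact (hGe r).mono hRb
  have hsum : ∀ a : Fin k → ℤ, ∑ i, T (wt O B i a) * G' i = Q * ((family O B a).fPoly - 1) := by
    intro a
    rw [Fintype.sum_option, mul_sub, hexp a]
    have h1 : (T (wt O B none a) : ℤ[T;T⁻¹]) * G' none = -Q := by
      show (T 0 : ℤ[T;T⁻¹]) * (-Q) = -Q
      rw [T_zero, one_mul]
    rw [h1]
    show -Q + ∑ r, T (wt O B (some r) a) * G r = _
    ring
  have h0 : ∑ i, T (wt O B i a) * G' i = 0 := by
    rw [hsum, ha, sub_self, mul_zero]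
  have hlin : ∀ i, wt O B i (a + w) = wt O B i a + wt O B i w := by
    intro i
    rw [wt_cf, wt_cf, wt_cf, ← Finset.sum_add_distrib]
    refine Finset.sum_congr rfl fun e _ => ?_
    simp only [Pi.add_apply]
    ring
  have h1 := cluster (fun i => wt O B i a) (fun i => wt O B i (a + w)) G' R hG'e h0 (fun i j hij => by
    have h2 := hw i j hij
    simp only [hlin]
    linarith)
  rw [hsum] at h1
  rcases mul_eq_zero.1 h1 with h2 | h2
  · exact absurd h2 hQ
  · exact sub_eq_zero.1 h2

open Classical in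
/-- the structure theorem -/
theorem cosets (hm : 0 < m) (N : ℕ) (O : Outer m) (hN : O.crossings.length ≤ N) (B : Boxes m k) :
    ∃ F : Finset ((Fin k → ℤ) × Finset (Option (Ind B) × Option (Ind B))),
      (∀ p ∈ F, ∀ e, |p.1 e| ≤ KK m k N) ∧
      {a | (family O B a).fPoly = 1} = ⋃ p ∈ F, {a | a - p.1 ∈ Lam O B p.2} := by
  have hm2 : (1 : ℤ) ≤ 3 * (m : ℤ) ^ 2 := by
    have : (1 : ℤ) ≤ m := by exact_mod_cast hm
    nlinarith
  refine ⟨((Fintype.piFinset (fun _ : Fin k => Finset.Icc (-(KK m k N : ℤ)) (KK m k N))) ×ˢ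
      (Finset.univ : Finset (Finset (Option (Ind B) × Option (Ind B))))).filter
      (fun p => ∀ v ∈ Lam O B p.2, (family O B (p.1 + v)).fPoly = 1), ?_, ?_⟩
  · intro p hp e
    have h1 := (Finset.mem_product.1 (Finset.mem_filter.1 hp).1).1
    have h2 := Finset.mem_Icc.1 (Fintype.mem_piFinset.1 h1 e)
    exact abs_le.2 h2
  · ext a
    simp only [Set.mem_setOf_eq, Set.mem_iUnion, exists_prop]
    constructor
    · intro ha
      set E : Finset (Option (Ind B) × Option (Ind B)) :=
        Finset.univ.filter (fun p => |wt O B p.1 a - wt O B p.2 a| ≤ 2 * ((RR m k N : ℕ) : ℤ)) with hE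
      obtain ⟨a₀, h1, h2⟩ := bounded_rep (ι := E) (fun p e => cf O B p.1.1 e - cf O B p.1.2 e) (3 * (m : ℤ) ^ 2)
        (2 * ((RR m k N : ℕ) : ℤ)) hm2 (by positivity) (fun p e => cf_bound hm O B _ _ e) a (fun p => by
          have h1 : ∑ e, (cf O B p.1.1 e - cf O B p.1.2 e) * a e = wt O B p.1.1 a - wt O B p.1.2 a := by
            rw [wt_cf, wt_cf, ← Finset.sum_sub_distrib]
            refine Finset.sum_congr rfl fun e _ => ?_
            ring
          rw [h1]
          exact (Finset.mem_filter.1 p.2).2)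
      have hLam : a - a₀ ∈ Lam O B E := by
        intro q hq
        have h3 := h1 ⟨q, hq⟩
        have h4 : wt O B q.1 (a - a₀) - wt O B q.2 (a - a₀) =
            ∑ e, (cf O B q.1 e - cf O B q.2 e) * a e - ∑ e, (cf O B q.1 e - cf O B q.2 e) * a₀ e := by
          rw [wt_cf, wt_cf, ← Finset.sum_sub_distrib, ← Finset.sum_sub_distrib]
          refine Finset.sum_congr rfl fun e _ => ?_
          simp only [Pi.sub_apply]
          ring
        rw [← h3, sub_self] at h4
        exact sub_eq_zero.1 h4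
      refine ⟨(a₀, E), ?_, hLam⟩
      rw [Finset.mem_filter, Finset.mem_product]
      refine ⟨⟨?_, Finset.mem_univ _⟩, ?_⟩
      · rw [Fintype.mem_piFinset]
        intro e
        rw [Finset.mem_Icc]
        refine abs_le.1 ((h2 e).trans ?_)
        unfold KK
        push_cast
        exact le_rfl
      · intro v hv
        have h3 : v - (a - a₀) ∈ Lam O B E := (Lam O B E).sub_mem hv hLam
        have h4 := core hm N O hN B a ha (v - (a - a₀)) (fun i j hij => h3 (i, j) (by
          rw [hE, Finset.mem_filter]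
          exact ⟨Finset.mem_univ _, hij⟩))
        have h5 : a + (v - (a - a₀)) = a₀ + v := by abel
        rw [h5] at h4
        exact h4
    · rintro ⟨p, hp, hv⟩
      have h1 := (Finset.mem_filter.1 hp).2 _ hv
      have h2 : p.1 + (a - p.1) = a := by abel
      rw [h2] at h1
      exact h1

/-- consequences -/
theorem bounded_mem (hm : 0 < m) (N : ℕ) (O : Outer m) (hN : O.crossings.length ≤ N) (B : Boxes m k)
    (a : Fin k → ℤ) (ha : (family O B a).fPoly = 1) :
    ∃ b : Fin k → ℤ, (∀ e, |b e| ≤ KK m k N) ∧ ∀ t : ℤ, (family O B (b + t • (a - b))).fPoly = 1 := by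
  obtain ⟨F, hF, hE⟩ := cosets hm N O hN B
  have h1 : a ∈ {a | (family O B a).fPoly = 1} := ha
  rw [hE] at h1
  simp only [Set.mem_setOf_eq, Set.mem_iUnion, exists_prop] at h1
  obtain ⟨p, hp, hv⟩ := h1
  refine ⟨p.1, hF p hp, fun t => ?_⟩
  have h2 : p.1 + t • (a - p.1) ∈ {a | (family O B a).fPoly = 1} := by
    rw [hE]
    simp only [Set.mem_setOf_eq, Set.mem_iUnion, exists_prop]
    refine ⟨p, hp, ?_⟩
    rw [add_sub_cancel_left]
    exact (Lam O B p.2).zsmul_mem hv t
  exact h2

/-- if the set is finite then it is bounded -/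
theorem bounded_of_finite (hm : 0 < m) (N : ℕ) (O : Outer m) (hN : O.crossings.length ≤ N) (B : Boxes m k)
    (hfin : {a : Fin k → ℤ | (family O B a).fPoly = 1}.Finite) (a : Fin k → ℤ) (ha : (family O B a).fPoly = 1)
    (e : Fin k) : |a e| ≤ KK m k N := by
  obtain ⟨b, hb, hline⟩ := bounded_mem hm N O hN B a ha
  by_cases hab : a = b
  · rw [hab]
    exact hb e
  · exfalso
    have hinj : Function.Injective (fun t : ℤ => b + t • (a - b)) := by
      intro s t hst
      have h1 : s • (a - b) = t • (a - b) := add_left_cancel hst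
      have h2 : (s - t) • (a - b) = 0 := by rw [sub_smul, h1, sub_self]
      rcases smul_eq_zero.1 h2 with h3 | h3
      · exact sub_eq_zero.1 h3
      · exact absurd (sub_eq_zero.1 h3) hab
    exact Set.infinite_of_injective_forall_mem hinj (fun t => hline t) hfin

end Pool.Agent.N569.FB
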