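import Mathlib
import Pool.Agent.N415.FB.Cramer

/-!
# Bounded representatives of integral solutions of linear equations
-/

set_option autoImplicit false

namespace Pool.Agent.N569.FB

open Finset

/-- the rows: the given vectors and the unit vectors -/
def row {ι : Type*} {n : ℕ} (u : ι → Fin (n + 1) → ℤ) : ι ⊕ Fin (n + 1) → Fin (n + 1) → ℤ
  | Sum.inl i => u i
  | Sum.inr l => Pi.single l 1

/-- the rows over the rationals -/
def rowQ {ι : Type*} {n : ℕ} (u : ι → Fin (n + 1) → ℤ) (x : ι ⊕ Fin (n + 1)) : Fin (n + 1) → ℚ :=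
  fun e => (row u x e : ℚ)

theorem exists_rows {ι : Type*} {n : ℕ} (u : ι → Fin (n + 1) → ℤ) :
    ∃ f : Fin (n + 1) → ι ⊕ Fin (n + 1), LinearIndependent ℚ (fun j => rowQ u (f j)) ∧
      ∀ i, rowQ u (Sum.inl i) ∈ Submodule.span ℚ (rowQ u '' {x | (∃ j, f j = x) ∧ ∃ i', x = Sum.inl i'}) := by
  classical
  set h0 : LinearIndepOn ℚ (rowQ u) (∅ : Set (ι ⊕ Fin (n + 1))) := linearIndepOn_empty ℚ _
  set s₁ := h0.extend (Set.empty_subset (Set.range (Sum.inl : ι → ι ⊕ Fin (n + 1)))) with hs₁
  have h1 : LinearIndepOn ℚ (rowQ u) s₁ := h0.linearIndepOn_extend _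
  set s₂ := h1.extend (Set.subset_univ s₁) with hs₂
  have h2 : LinearIndepOn ℚ (rowQ u) s₂ := h1.linearIndepOn_extend _
  have hspan : Submodule.span ℚ (rowQ u '' s₂) = ⊤ := by
    rw [hs₂, h1.span_image_extend_eq_span_image, Set.image_univ, eq_top_iff]
    rintro x -
    have hx : x = ∑ l, x l • rowQ u (Sum.inr l) := by
      funext e
      simp only [Finset.sum_apply, Pi.smul_apply, rowQ, row, smul_eq_mul, Pi.single_apply]
      simp
    rw [hx]
    exact Submodule.sum_mem _ fun l _ => Submodule.smul_mem _ _ (Submodule.subset_span ⟨_, rfl⟩)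
  have hli : LinearIndependent ℚ (fun x : s₂ => rowQ u x) := h2
  have hsp : ⊤ ≤ Submodule.span ℚ (Set.range (fun x : s₂ => rowQ u x)) := by
    have : Set.range (fun x : s₂ => rowQ u x) = rowQ u '' s₂ := by
      rw [Set.image_eq_range]
    rw [this, hspan]
  let bas := Module.Basis.mk hli hsp
  haveI : Fintype s₂ := FiniteDimensional.fintypeBasisIndex bas
  have hcard : Fintype.card s₂ = n + 1 := by
    rw [← Module.finrank_eq_card_basis bas, Module.finrank_fintype_fun_eq_card, Fintype.card_fin]
  let ε : Fin (n + 1) ≃ s₂ := (Fintype.equivFinOfCardEq hcard).symm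
  refine ⟨fun j => (ε j : ι ⊕ Fin (n + 1)), hli.comp _ ε.injective, fun i => ?_⟩
  have h3 : rowQ u (Sum.inl i) ∈ Submodule.span ℚ (rowQ u '' s₁) := by
    rw [hs₁, h0.span_image_extend_eq_span_image]
    exact Submodule.subset_span ⟨_, ⟨i, rfl⟩, rfl⟩
  refine Submodule.span_mono (Set.image_mono ?_) h3
  intro x hx
  refine ⟨⟨ε.symm ⟨x, h1.subset_extend (Set.subset_univ s₁) hx⟩, ?_⟩, ?_⟩
  · simp
  · obtain ⟨i', hi'⟩ := h0.extend_subset (Set.empty_subset (Set.range (Sum.inl : ι → ι ⊕ Fin (n + 1)))) hx
    exact ⟨i', hi'.symm⟩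

/-- bounded representatives -/
theorem bounded_rep {k : ℕ} {ι : Type*} (u : ι → Fin k → ℤ) (M b : ℤ) (hM : 1 ≤ M) (hb : 0 ≤ b)
    (hu : ∀ i e, |u i e| ≤ M) (a : Fin k → ℤ) (ha : ∀ i, |∑ e, u i e * a e| ≤ b) :
    ∃ a₀ : Fin k → ℤ, (∀ i, ∑ e, u i e * a₀ e = ∑ e, u i e * a e) ∧
      ∀ e, |a₀ e| ≤ k.factorial * M ^ (k - 1) * (b + k.factorial * M ^ k) := by
  classical
  rcases k with _ | n
  · exact ⟨a, fun i => rfl, fun e => e.elim0⟩
  obtain ⟨f, hf, hspan⟩ := exists_rows u
  let U : Matrix (Fin (n + 1)) (Fin (n + 1)) ℤ := fun j e => row u (f j) e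
  have hdet : U.det ≠ 0 := by
    intro h0
    have h1 : (U.map (Int.castRingHom ℚ)).det = 0 := by
      have h2 := RingHom.map_det (Int.castRingHom ℚ) U
      rw [h0, map_zero] at h2
      exact h2.symm
    have h3 : IsUnit (U.map (Int.castRingHom ℚ)) := by
      rw [← Matrix.linearIndependent_rows_iff_isUnit]
      exact hf
    rw [Matrix.isUnit_iff_isUnit_det, h1] at h3
    exact not_isUnit_zero h3
  have hU : ∀ j e, |U j e| ≤ M := by
    intro j e
    show |row u (f j) e| ≤ M
    rcases hx : f j with i | l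
    · exact hu i e
    · show |(Pi.single l 1 : Fin (n + 1) → ℤ) e| ≤ M
      rw [Pi.single_apply]
      split_ifs
      · simpa using hM
      · simp; omega
  have hD : |U.det| ≤ (n + 1).factorial * M ^ (n + 1) := by
    have h := Matrix.det_le (A := U) (abv := (AbsoluteValue.abs : AbsoluteValue ℤ ℤ)) (x := M) (fun p q => hU _ _)
    rw [Fintype.card_fin, nsmul_eq_mul] at h
    exact h
  -- the quotients
  let q : Fin (n + 1) → ℤ := fun j => match f j with
    | Sum.inl _ => 0
    | Sum.inr l => a l / U.det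
  let a₀ : Fin (n + 1) → ℤ := a - U.adjugate.mulVec q
  have hUa : U.mulVec a₀ = U.mulVec a - U.det • q := by
    show U.mulVec (a - U.adjugate.mulVec q) = _
    rw [Matrix.mulVec_sub, Matrix.mulVec_mulVec, Matrix.mul_adjugate, Matrix.smul_mulVec, Matrix.one_mulVec]
  have hrow : ∀ j, ∑ e, U j e * a₀ e = ∑ e, U j e * a e - U.det * q j := fun j => congrFun hUa j
  refine ⟨a₀, fun i => ?_, fun e => ?_⟩
  · -- the equations
    have key : ∀ x ∈ Submodule.span ℚ (rowQ u '' {x | (∃ j, f j = x) ∧ ∃ i', x = Sum.inl i'}),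
        ∑ e, x e * ((a₀ e : ℚ) - a e) = 0 := by
      intro x hx
      induction hx using Submodule.span_induction with
      | mem x h =>
        obtain ⟨y, ⟨⟨j, hj⟩, ⟨i', hi'⟩⟩, rfl⟩ := h
        have h1 := hrow j
        have hq : q j = 0 := by
          show (match f j with
            | Sum.inl _ => 0
            | Sum.inr l => a l / U.det) = 0
          rw [hj, hi']
        rw [hq, mul_zero, sub_zero] at h1
        have h2 : ∑ e, row u y e * a₀ e = ∑ e, row u y e * a e := by
          rw [← hj]
          exact h1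
        have h3 : ((∑ e, row u y e * a₀ e : ℤ) : ℚ) = ((∑ e, row u y e * a e : ℤ) : ℚ) := by rw [h2]
        push_cast at h3
        have h4 : ∑ e, rowQ u y e * ((a₀ e : ℚ) - a e) =
            ∑ e, (row u y e : ℚ) * a₀ e - ∑ e, (row u y e : ℚ) * a e := by
          rw [← Finset.sum_sub_distrib]
          refine Finset.sum_congr rfl fun e _ => ?_
          show (row u y e : ℚ) * ((a₀ e : ℚ) - a e) = _
          ring
        rw [h4, h3, sub_self]
      | zero => simp
      | add x y _ _ hx hy =>
        simp only [Pi.add_apply, add_mul, Finset.sum_add_distrib, hx, hy, add_zero]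
      | smul c x _ hx =>
        simp only [Pi.smul_apply, smul_eq_mul, mul_assoc, ← Finset.mul_sum, hx, mul_zero]
    have h1 := key _ (hspan i)
    have h2 : ((∑ e, u i e * a₀ e : ℤ) : ℚ) - ((∑ e, u i e * a e : ℤ) : ℚ) = 0 := by
      rw [← h1]
      push_cast
      rw [← Finset.sum_sub_distrib]
      refine Finset.sum_congr rfl fun e _ => ?_
      show _ = (u i e : ℚ) * _
      ring
    have h3 := sub_eq_zero.1 h2
    exact_mod_cast h3
  · rw [Nat.add_sub_cancel]
    refine Pool.Agent.N415.FB.cramer_aux U hdet M _ hU a₀ (fun j => ?_) e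
    have hpos : (0 : ℤ) ≤ (n + 1).factorial * M ^ (n + 1) := by positivity
    rw [hrow j]
    rcases hx : f j with i | l
    · have hq : q j = 0 := by
        show (match f j with
          | Sum.inl _ => 0
          | Sum.inr l => a l / U.det) = 0
        rw [hx]
      rw [hq, mul_zero, sub_zero]
      have h1 : ∑ e, U j e * a e = ∑ e, u i e * a e := by
        refine Finset.sum_congr rfl fun e _ => ?_
        show row u (f j) e * a e = _
        rw [hx]
        rfl
      rw [h1]
      have := ha i
      linarith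
    · have hq : q j = a l / U.det := by
        show (match f j with
          | Sum.inl _ => 0
          | Sum.inr l => a l / U.det) = a l / U.det
        rw [hx]
      have h1 : ∑ e, U j e * a e = a l := by
        have h2 : ∀ e, U j e * a e = if e = l then a l else 0 := by
          intro e
          show row u (f j) e * a e = _
          rw [hx]
          show (Pi.single l 1 : Fin (n + 1) → ℤ) e * a e = _
          rw [Pi.single_apply]
          split_ifs with h
          · rw [h, one_mul]
          · rw [zero_mul]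
        simp only [h2]
        simp
      rw [h1, hq]
      have h3 : a l - U.det * (a l / U.det) = a l % U.det := by
        have := Int.emod_add_mul_ediv (a l) U.det
        linarith
      rw [h3, abs_of_nonneg (Int.emod_nonneg _ hdet)]
      have h4 := Int.emod_lt_abs (a l) hdet
      linarith

end Pool.Agent.N569.FB
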